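import Pool.Agent.H.MP_034e58.A
import Pool.Agent.Lib.helper24.Succ

set_option autoImplicit false

open Set Filter Topology TopologicalSpace
open Cardinal hiding univ

namespace Pool.Agent.H.MP_bf7e1e
open Pool.Agent.Lib.helper24.Succ

def Om : Type := W ℵ₀

noncomputable instance : ConditionallyCompleteLinearOrderBot Om :=
  letI : LinearOrder Om := inferInstanceAs (LinearOrder (W ℵ₀))
  haveI : WellFoundedLT Om := inferInstanceAs (WellFoundedLT (W ℵ₀))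
  haveI : Nonempty Om := inferInstanceAs (Nonempty (W ℵ₀))
  letI : OrderBot Om := WellFoundedLT.toOrderBot Om
  WellFoundedLT.conditionallyCompleteLinearOrderBot Om

instance : WellFoundedLT Om := inferInstanceAs (WellFoundedLT (W ℵ₀))
noncomputable instance : TopologicalSpace Om := Preorder.topology Om
instance : OrderTopology Om := ⟨rfl⟩

lemma cnt (a : Om) : (Iic a).Countable := le_aleph0_iff_set_countable.1 (card_Iic le_rfl a)

lemma bd {s : Set Om} (h : s.Countable) : ∃ b, ∀ a ∈ s, a < b := bdd_countable le_rfl s h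

lemma bdr {J : Type} [Countable J] (f : J → Om) : ∃ b, ∀ j, f j < b :=
  (bd (countable_range f)).imp fun _ h j => h _ ⟨j, rfl⟩

lemma mk_Om : #Om ≤ 𝔠 := (mk_W ℵ₀).trans_le (Order.succ_le_of_lt aleph0_lt_continuum)

lemma nxt (a : Om) : ∃ b, Ioi a = Ici b := by
  obtain ⟨c, hc⟩ := bd (countable_singleton a)
  obtain ⟨b, b1, b2⟩ := (wellFounded_lt (α := Om)).has_min (Ioi a) ⟨c, hc a rfl⟩
  exact ⟨b, Set.ext fun x => ⟨fun h => not_lt.1 (b2 x h), fun h => mem_Ioi.2 (lt_of_lt_of_le b1 h)⟩⟩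

lemma Iic_open (a : Om) : IsOpen (Iic a) := by
  obtain ⟨b, hb⟩ := nxt a
  rw [← compl_Ioi, hb, compl_Ici]
  exact isOpen_Iio

lemma base {a : Om} {U : Set Om} (h : U ∈ 𝓝 a) : ∃ b ≤ a, IsOpen (Ici b) ∧ Icc b a ⊆ U := by
  by_cases e : ∃ l, l < a
  · obtain ⟨l, l1, l2⟩ := exists_Ioc_subset_of_mem_nhds h e
    obtain ⟨b, hb⟩ := nxt l
    exact ⟨b, hb.le l1, hb ▸ isOpen_Ioi, fun x hx => l2 ⟨hb.ge hx.1, hx.2⟩⟩
  · push Not at e
    refine ⟨a, le_rfl, ?_, by simpa using mem_of_mem_nhds h⟩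
    rw [eq_univ_of_forall (s := Ici a) e]
    exact isOpen_univ

lemma cpt (a : Om) : IsCompact (Iic a) := by
  rw [← Icc_bot]
  exact isCompact_Icc

instance : CountablyCompactSpace Om := ⟨isCountablyCompact_iff_seq_clusterPt.2 fun x _ => by
  obtain ⟨b, hb⟩ := bdr x
  obtain ⟨z, -, hz⟩ := (cpt b).exists_mapClusterPt (f := atTop) (u := x)
    (tendsto_principal.2 (Eventually.of_forall fun n => (hb n).le))
  exact ⟨z, trivial, hz⟩⟩

lemma club {F G : Set Om} (hF : IsClosed F) (hG : IsClosed G) (f : ∀ a, ∃ b ∈ F, a < b)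
    (g : ∀ a, ∃ b ∈ G, a < b) (a : Om) : ∃ b ∈ F ∩ G, a < b := by
  choose f f1 f2 using f
  choose g g1 g2 using g
  let s : ℕ → Om := fun n => (f ∘ g)^[n] (f a)
  have e : ∀ n, s (n + 1) = f (g (s n)) := fun n => Function.iterate_succ_apply' _ _ _
  have m : Monotone s := monotone_nat_of_le_succ fun n => e n ▸ ((g2 _).trans (f2 _)).le
  have b : BddAbove (range s) := (bd (countable_range s)).imp fun _ h x hx => (h x hx).le
  have t := tendsto_atTop_ciSup m b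
  refine ⟨_, ⟨hF.mem_of_tendsto t (Eventually.of_forall fun n => ?_), hG.mem_of_tendsto
    (tendsto_of_tendsto_of_tendsto_of_le_of_le t tendsto_const_nhds (fun n => (g2 _).le)
      fun n => ((f2 _).le.trans (e n).ge).trans (le_ciSup b (n + 1)))
    (Eventually.of_forall fun n => g1 _)⟩, (f2 a).trans_le (le_ciSup b 0)⟩
  cases n
  exacts [f1 _, e _ ▸ f1 _]

lemma tail {ι : Type} [Finite ι] (U : ι → Set Om) (h1 : ∀ i, IsOpen (U i)) (h2 : ⋃ i, U i = univ) :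
    ∃ i a, Ioi a ⊆ U i := by
  by_contra! h
  let F : Filter Om :=
    { sets := {S | ∃ F ⊆ S, IsClosed F ∧ ∀ a, ∃ b ∈ F, a < b}
      univ_sets := ⟨univ, subset_rfl, isClosed_univ, fun a =>
        (bd (countable_singleton a)).imp fun _ h => ⟨trivial, h a rfl⟩⟩
      sets_of_superset := fun ⟨F, a, b⟩ e => ⟨F, a.trans e, b⟩
      inter_sets := fun ⟨F, a, b, c⟩ ⟨G, d, e, f⟩ =>
        ⟨F ∩ G, inter_subset_inter a d, b.inter e, club b e c f⟩ }
  obtain ⟨G, g1, -, g2⟩ : ⋂ i, (U i)ᶜ ∈ F := iInter_mem.2 fun i => ⟨_, subset_rfl,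
    (h1 i).isClosed_compl, fun a => (not_subset.1 (h i a)).imp fun _ h => ⟨h.2, h.1⟩⟩
  obtain ⟨b, b1, -⟩ := g2 ⊥
  obtain ⟨i, hi⟩ := mem_iUnion.1 (h2.ge (mem_univ b))
  exact mem_iInter.1 (g1 b1) i hi

lemma inj_choice {ι : Type} (h : #ι ≤ 𝔠) (P : ι → Set ℝ) (hP : ∀ i, 𝔠 ≤ #(P i)) :
    ∃ g : ι → ℝ, g.Injective ∧ ∀ i, g i ∈ P i := by
  let I := (𝔠 : Cardinal.{0}).ord.ToType
  have hI : ∀ i : I, #(Iio i) < 𝔠 := fun i => (mk_Iio_lt i (by simp [I])).trans_eq (by simp [I])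
  obtain ⟨e⟩ : Nonempty (ι ↪ I) := (le_def _ _).1 (h.trans_eq (by simp [I]))
  have H : ∀ (i : I) (s : Set (I × ℝ)), #s < 𝔠 → ∃ x, x ∉ Prod.snd '' s ∧
      ∀ j, e j = i → x ∈ P j := fun i s hs => by
    have k : ∀ Q : Set ℝ, 𝔠 ≤ #Q → ∃ x ∈ Q, x ∉ Prod.snd '' s := fun Q hQ => not_subset.1
      fun a => ((mk_le_mk_of_subset a).trans_lt (mk_image_le.trans_lt hs)).not_ge hQ
    by_cases c : ∃ j, e j = i
    · obtain ⟨j, rfl⟩ := c
      obtain ⟨x, x1, x2⟩ := k _ (hP j)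
      exact ⟨x, x2, fun l hl => e.injective hl ▸ x1⟩
    · obtain ⟨x, -, x2⟩ := k univ (by simp [mk_real])
      exact ⟨x, x2, fun j hj => (c ⟨j, hj⟩).elim⟩
  choose! g hg using H
  obtain ⟨f, hf⟩ := MP_034e58.trec g
  have h1 := fun i => hg i ((fun j => (j, f j)) '' Iio i) (mk_image_le.trans_lt (hI i))
  simp only [← hf] at h1
  exact ⟨f ∘ e, (Function.Injective.of_lt_imp_ne fun i j h h' =>
    (h1 j).1 ⟨_, ⟨i, h, rfl⟩, h'⟩).comp e.injective, fun j => (h1 _).2 j rfl⟩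

/-- initial segments of a branch -/
def L (b : ℕ → Bool) : ℕ → List Bool
  | 0 => []
  | n + 1 => b n :: L b n

lemma exists_rk : ∃ rk : ℝ → Om, (∀ a, ∀ p q : ℝ, p < q → ∃ t ∈ Ioo p q, rk t = a) ∧
    ∀ τ : List Bool → ℝ, (fun b => ⨆ n, τ (L b n)).Injective → ∃ b, rk (⨆ n, τ (L b n)) = ⊥ := by
  classical
  obtain ⟨g, g1, g2⟩ := inj_choice (ι := (Om × ℚ × ℚ) ⊕ (List Bool → ℝ)) (by
      rw [mk_sum, lift_id, lift_id]
      refine add_le_of_le aleph0_le_continuum ?_ (by simp [mk_real])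
      rw [mk_prod, lift_id, lift_id]
      exact mul_le_of_le aleph0_le_continuum mk_Om (mk_le_aleph0.trans aleph0_le_continuum))
    (Sum.elim (fun p => if p.2.1 < p.2.2 then Ioo (p.2.1 : ℝ) p.2.2 else univ)
      fun τ => if (fun b => ⨆ n, τ (L b n)).Injective then range fun b => ⨆ n, τ (L b n) else univ)
    (by
      rintro (p | τ) <;> dsimp only [Sum.elim_inl, Sum.elim_inr] <;> split_ifs with c
      · rw [mk_Ioo_real (by exact_mod_cast c)]
      · simp [mk_real]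
      · rw [mk_range_eq _ c]; simp
      · simp [mk_real])
  refine ⟨Function.extend g (Sum.elim Prod.fst fun _ => ⊥) fun _ => ⊥, fun a p q h => ?_,
    fun τ h => ?_⟩
  · obtain ⟨p', a1, a2⟩ := exists_rat_btwn h
    obtain ⟨q', b1, b2⟩ := exists_rat_btwn a2
    have := g2 (.inl (a, p', q'))
    rw [Sum.elim_inl, if_pos (by exact_mod_cast b1)] at this
    exact ⟨_, ⟨a1.trans this.1, this.2.trans b2⟩, g1.extend_apply _ _ _⟩
  · have := g2 (.inr τ)
    rw [Sum.elim_inr, if_pos h] at this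
    obtain ⟨b, hb⟩ := this
    exact ⟨b, by beta_reduce at hb; rw [hb]; exact g1.extend_apply _ _ _⟩

end Pool.Agent.H.MP_bf7e1e
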