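import Pool.Agent.H.MP_bf7e1e.A

set_option autoImplicit false

open Set Filter Topology TopologicalSpace

namespace Pool.Agent.H.MP_bf7e1e

lemma dim0 {X ι J : Type} [TopologicalSpace X] [Finite ι] [Countable J] (U : ι → Set X)
    (B : J → Set X) (h1 : ∀ j, IsClopen (B j)) (h2 : ∀ x, ∃ j, x ∈ B j)
    (h3 : ∀ j, ∃ i, B j ⊆ U i) : ∃ (κ : Type) (_ : Finite κ) (V : κ → Set X),
      (∀ k, ∃ f : C(X, ℝ), V k = {x | f x ≠ 0}) ∧ (⋃ k, V k) = univ ∧ (∀ k, ∃ i, V k ⊆ U i) ∧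
      ∀ x, Nat.card {k // x ∈ V k} ≤ 0 + 1 := by
  classical
  obtain ⟨e, he⟩ := exists_injective_nat J
  choose a ha using h3
  have ex : ∀ x, ∃ n, ∃ j, e j = n ∧ x ∈ B j := fun x => (h2 x).elim fun j h => ⟨_, j, rfl, h⟩
  choose c c1 c2 using fun x => Nat.find_spec (ex x)
  have lc : IsLocallyConstant c := (IsLocallyConstant.iff_eventually_eq c).2 fun x => by
    have : ∀ᶠ y in 𝓝 x, ∀ j ∈ e ⁻¹' Iio (e (c x)), y ∉ B j :=
      (eventually_all_finite ((finite_Iio _).preimage he.injOn)).2 fun j hj =>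
        (h1 j).1.isOpen_compl.mem_nhds fun k => Nat.find_min (ex x) (c1 x ▸ hj) ⟨j, rfl, k⟩
    filter_upwards [this, (h1 _).2.mem_nhds (c2 x)] with y y1 y2
    refine he (le_antisymm ?_ (not_lt.1 fun k => y1 _ k (c2 y)))
    rw [c1]
    exact Nat.find_min' _ ⟨_, rfl, y2⟩
  exact ⟨ι, inferInstance, fun i => {x | a (c x) = i}, fun i =>
    ⟨⟨_, (lc.comp fun j => if a j = i then (1 : ℝ) else 0).continuous⟩, by ext; simp⟩,
    eq_univ_of_forall fun x => mem_iUnion.2 ⟨_, rfl⟩, fun i => ⟨i, fun x hx => hx ▸ ha _ (c2 x)⟩,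
    fun x => Finite.card_le_one_iff_subsingleton.2 ⟨fun p q => Subtype.ext (p.2.symm.trans q.2)⟩⟩

lemma Om_cover {ι : Type} [Finite ι] (U : ι → Set Om) (h1 : ∀ i, IsOpen (U i))
    (h2 : ⋃ i, U i = univ) : ∃ (J : Type) (_ : Countable J) (B : J → Set Om),
      (∀ j, IsClopen (B j)) ∧ (∀ x, ∃ j, x ∈ B j) ∧ ∀ j, ∃ i, B j ⊆ U i := by
  obtain ⟨i, a, h⟩ := tail U h1 h2
  have := (cnt a).to_subtype
  choose k hk using fun x => mem_iUnion.1 (h2.ge (mem_univ x))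
  choose b b1 b2 b3 using fun x => base ((h1 _).mem_nhds (hk x))
  refine ⟨Option (Iic a), inferInstance, fun j => j.elim (Ioi a) fun x => Icc (b x) x, ?_,
    fun x => ?_, ?_⟩
  · rintro (_ | x)
    exacts [⟨compl_Iic (a := a) ▸ (Iic_open a).isClosed_compl, isOpen_Ioi⟩,
      ⟨isClosed_Icc, (b2 x).inter (Iic_open x)⟩]
  · rcases le_or_gt x a with e | e
    exacts [⟨some ⟨x, e⟩, b1 x, le_rfl⟩, ⟨none, e⟩]
  · rintro (_ | x)
    exacts [⟨i, h⟩, ⟨_, b3 x⟩]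

/-- continuous monotone sections -/
def Y (rk : ℝ → Om) : Set (Om → ℝ) := {y | Continuous y ∧ Monotone y ∧ ∀ a, rk (y a) ≤ a}

variable {rk : ℝ → Om}

lemma cv (a : Om) : Continuous fun y : Y rk => y.1 a :=
  (continuous_apply a).comp continuous_subtype_val

lemma ev : Continuous fun p : Om × Y rk => p.2.1 p.1 := continuous_iff_continuousAt.2 fun p =>
  tendsto_order.2 ⟨fun c hc => by
    obtain ⟨b, b1, b2, b3⟩ := base (p.2.2.1.continuousAt.eventually (lt_mem_nhds hc))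
    filter_upwards [prod_mem_nhds (b2.mem_nhds b1) ((cv b).continuousAt.eventually
      (lt_mem_nhds (b3 ⟨le_rfl, b1⟩)))] with q hq using lt_of_lt_of_le hq.2 (q.2.2.2.1 hq.1),
  fun c hc => by
    filter_upwards [prod_mem_nhds ((Iic_open p.1).mem_nhds self_mem_Iic) ((cv p.1).continuousAt.eventually
      (gt_mem_nhds hc))] with q hq using lt_of_le_of_lt (q.2.2.2.1 hq.1) hq.2⟩

lemma nb1 (y : Y rk) (a : Om) {r : ℝ} (hr : 0 < r) :
    ∀ᶠ z : Y rk in 𝓝 y, ∀ b ∈ Iic a, |z.1 b - y.1 b| < r :=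
  (cpt a).eventually_forall_of_forall_eventually fun b _ =>
    (show Continuous fun q : Y rk × Om => |q.1.1 q.2 - y.1 q.2| from
      ((ev.comp continuous_swap).sub (y.2.1.comp continuous_snd)).abs).continuousAt.eventually
        (gt_mem_nhds (by simpa using hr))

lemma nb2 {y : Y rk} {U : Set (Y rk)} (h : U ∈ 𝓝 y) :
    ∃ a, ∃ r > 0, ∀ z : Y rk, (∀ b ≤ a, |z.1 b - y.1 b| < r) → z ∈ U := by
  obtain ⟨V, v1, v2⟩ := (mem_nhds_subtype _ _ _).1 h
  rw [nhds_pi, Filter.mem_pi] at v1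
  obtain ⟨I, i1, t, t1, t2⟩ := v1
  obtain ⟨a, ha⟩ := bd i1.countable
  obtain ⟨r, r1, r2⟩ := ((eventually_all_finite i1).2 fun b _ =>
    (show ∀ᶠ r in 𝓝[>] (0 : ℝ), Metric.ball (y.1 b) r ⊆ t b from
      (eventually_ball_subset (t1 b)).filter_mono nhdsWithin_le_nhds)).and self_mem_nhdsWithin |>.exists
  exact ⟨a, r, r2, fun z hz => v2 (t2 fun b hb => r1 b hb (hz b (ha b hb).le))⟩

noncomputable def tr (b : Om) (y : Y rk) : Y rk := ⟨fun a => y.1 (min a b), y.2.1.comp (by fun_prop),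
  fun _ _ h => y.2.2.1 (min_le_min_right _ h), fun _ => (y.2.2.2 _).trans (min_le_left _ _)⟩

lemma sepb (b : Om) : ∃ D : Set (Y rk), D.Countable ∧
    ∀ y : Y rk, ∀ r > 0, ∃ d ∈ D, ∀ a, |d.1 a - y.1 (min a b)| < r := by
  let Z := {y : Y rk | ∀ a, y.1 a = y.1 (min a b)}
  have := (cnt b).to_subtype
  have : SecondCountableTopology Z := IsInducing.secondCountableTopology
    (f := fun (z : Z) (a : Iic b) => z.1.1 a) (IsInducing.of_comp
      (g := fun (f : Iic b → ℝ) (a : Om) => f ⟨min a b, mem_Iic.2 (min_le_right _ _)⟩)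
      (continuous_pi fun a => (cv a.1).comp continuous_subtype_val) (by fun_prop) (by
        convert IsInducing.subtypeVal.comp (IsInducing.subtypeVal (t := Z)) using 1
        exact funext fun z => funext fun a => (z.2 a).symm))
  obtain ⟨D, d1, d2⟩ := exists_countable_dense Z
  refine ⟨Subtype.val '' D, d1.image _, fun y r hr => ?_⟩
  obtain ⟨d, h1, h2⟩ := d2.inter_nhds_nonempty (x := ⟨tr b y, fun a => by simp [tr]⟩)
    (continuous_subtype_val.continuousAt.eventually (nb1 (tr b y) b hr))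
  exact ⟨d, ⟨d, h1, rfl⟩, fun a => by simpa [tr, ← d.2 a] using h2 _ (min_le_right a b)⟩

lemma lind {ι : Type} [Nonempty ι] (U : ι → Set (Y rk)) (h : ∀ y, ∃ i, U i ∈ 𝓝 y) :
    ∃ t : Set ι, t.Countable ∧ ∀ y, ∃ i ∈ t, y ∈ U i := by
  choose D d1 d2 using sepb (rk := rk)
  have : ∀ (d : Y rk) (k : ℕ), ∃ a i, (∃ a i, ∀ z : Y rk, (∀ b ≤ a, |z.1 b - d.1 b| < 1 / (k + 1)) →
      z ∈ U i) → ∀ z : Y rk, (∀ b ≤ a, |z.1 b - d.1 b| < 1 / (k + 1)) → z ∈ U i := fun d k => by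
    by_cases e : ∃ a i, ∀ z : Y rk, (∀ b ≤ a, |z.1 b - d.1 b| < 1 / (k + 1)) → z ∈ U i
    · obtain ⟨a, i, h⟩ := e
      exact ⟨a, i, fun _ => h⟩
    · exact ⟨⊥, Classical.arbitrary ι, fun h => (e h).elim⟩
  choose α i hi using this
  choose φ hφ using fun b => bd ((((d1 b).prod countable_univ).image fun p : Y rk × ℕ =>
      α p.1 p.2).insert b)
  let β : ℕ → Om := fun n => φ^[n] ⊥
  have e : ∀ n, β (n + 1) = φ (β n) := fun n => Function.iterate_succ_apply' _ _ _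
  have m : Monotone β := monotone_nat_of_le_succ fun n => e n ▸ (hφ _ _ (.inl rfl)).le
  have b : BddAbove (range β) := (bd (countable_range β)).imp fun _ h x hx => (h x hx).le
  refine ⟨⋃ n, (fun p : Y rk × ℕ => i p.1 p.2) '' D (β n) ×ˢ univ,
    countable_iUnion fun n => ((d1 _).prod countable_univ).image _, fun y => ?_⟩
  obtain ⟨j, hj⟩ := h (tr (⨆ n, β n) y)
  obtain ⟨a, r, r1, r2⟩ := nb2 hj
  obtain ⟨k, hk⟩ := exists_nat_one_div_lt (half_pos r1)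
  have k0 : (0 : ℝ) < 1 / (k + 1) / 2 := by positivity
  obtain ⟨n, hn⟩ := ((y.2.1.tendsto _).comp (tendsto_atTop_ciSup m b)).eventually
    (lt_mem_nhds (sub_lt_self _ k0)) |>.exists
  obtain ⟨d, a1, a2⟩ := d2 (β n) y _ k0
  have c : ∀ x, |y.1 (min x (⨆ n, β n)) - d.1 x| < 1 / (k + 1) := fun x => by
    have h1 := abs_lt.1 (a2 x)
    have h2 := y.2.2.1 (min_le_min_left x (le_ciSup b n))
    have h3 : y.1 (min x (⨆ n, β n)) < y.1 (min x (β n)) + 1 / (k + 1) / 2 := by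
      rcases le_total x (β n) with l | l
      · rw [min_eq_left l, min_eq_left (l.trans (le_ciSup b n))]; linarith
      · rw [min_eq_right l]
        linarith [y.2.2.1 (min_le_right x (⨆ n, β n)), show _ < y.1 (β n) from hn]
    rw [abs_lt]; constructor <;> linarith
  refine ⟨i d k, mem_iUnion.2 ⟨n, (d, k), ⟨a1, trivial⟩, rfl⟩, hi d k ⟨a, j, fun z hz =>
    r2 z fun x hx => ?_⟩ y fun x hx => ?_⟩
  · show |z.1 x - y.1 (min x _)| < r
    linarith [abs_sub_le (z.1 x) (d.1 x) (y.1 (min x (⨆ n, β n))), hz x hx,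
      (abs_sub_comm _ _).trans_lt (c x)]
  · have := c x
    rwa [min_eq_left (hx.trans ((hφ _ _ (.inr ⟨(d, k), ⟨a1, trivial⟩, rfl⟩)).le.trans
      ((e n).ge.trans (le_ciSup b (n + 1)))))] at this

lemma Y_base (h : ∀ a, ∀ p q : ℝ, p < q → ∃ t ∈ Ioo p q, rk t = a) {y : Y rk} {U : Set (Y rk)}
    (hU : U ∈ 𝓝 y) : ∃ V, IsClopen V ∧ y ∈ V ∧ V ⊆ U := by
  obtain ⟨V, v1, v2⟩ := (mem_nhds_subtype _ _ _).1 hU
  rw [nhds_pi, Filter.mem_pi] at v1
  obtain ⟨I, i1, t, t1, t2⟩ := v1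
  choose l u a1 a2 using fun b => mem_nhds_iff_exists_Ioo_subset.1 (t1 b)
  choose s hs using fun b : Om => bd (countable_singleton b)
  choose p p1 p2 using fun b => h (s b) _ _ (a1 b).1
  choose q q1 q2 using fun b => h (s b) _ _ (a1 b).2
  refine ⟨⋂ b ∈ I, {z | z.1 b ∈ Ioo (p b) (q b)}, i1.isClopen_biInter fun b _ =>
    ⟨?_, isOpen_Ioo.preimage (cv b)⟩, mem_iInter₂.2 fun b _ => ⟨(p1 b).2, (q1 b).1⟩,
    fun z hz => v2 (t2 fun b hb => a2 b ⟨(p1 b).1.trans (mem_iInter₂.1 hz b hb).1,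
      (mem_iInter₂.1 hz b hb).2.trans (q1 b).2⟩)⟩
  convert isClosed_Icc.preimage (cv (rk := rk) b) using 1
  refine Set.ext fun z => ⟨fun h => Ioo_subset_Icc_self h, fun h =>
    ⟨h.1.lt_of_ne fun e => ?_, h.2.lt_of_ne fun e => ?_⟩⟩
  · exact (hs b b rfl).not_ge (p2 b ▸ e ▸ z.2.2.2 b)
  · exact (hs b b rfl).not_ge (q2 b ▸ e ▸ z.2.2.2 b)

end Pool.Agent.H.MP_bf7e1e
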