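import Pool.Agent.H.MP_bf7e1e.B

set_option autoImplicit false

open Set Filter Topology TopologicalSpace

namespace Pool.Agent.H.MP_bf7e1e

variable {rk : ℝ → Om}

def G (C : Set (Om × Y rk)) (y : Y rk) : Prop := ∃ a, ∀ b > a, (b, y) ∈ C

lemma G_lim {C : Set (Om × Y rk)} (hC : IsClosed C) {y : ℕ → Y rk} {z : Y rk}
    (h : Tendsto y atTop (𝓝 z)) (g : ∀ n, G C (y n)) : G C z := by
  choose a ha using g
  obtain ⟨b, hb⟩ := bdr a
  exact ⟨b, fun c hc => hC.mem_of_tendsto (tendsto_const_nhds.prodMk_nhds h)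
    (Eventually.of_forall fun n => ha n c ((hb n).trans hc))⟩

lemma G_or {C : Set (Om × Y rk)} (hC : IsClopen C) (y : Y rk) : G C y ∨ G Cᶜ y := by
  obtain ⟨i, a, h⟩ := tail (fun i : Bool => (fun b => (b, y)) ⁻¹' bif i then C else Cᶜ)
    (fun i => IsOpen.preimage (by fun_prop) (by cases i; exacts [hC.compl.2, hC.2]))
    (eq_univ_of_forall fun b => by
      by_cases e : (b, y) ∈ C
      exacts [mem_iUnion.2 ⟨true, e⟩, mem_iUnion.2 ⟨false, e⟩])
  cases i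
  exacts [.inr ⟨a, h⟩, .inl ⟨a, h⟩]

lemma G_not {C : Set (Om × Y rk)} {y : Y rk} (h : G C y) (h' : G Cᶜ y) : False := by
  obtain ⟨⟨a, h1⟩, b, h2⟩ := And.intro h h'
  obtain ⟨c, hc⟩ := bd (countable_singleton (max a b))
  exact h2 c (max_lt_iff.1 (hc _ rfl)).2 (h1 c (max_lt_iff.1 (hc _ rfl)).1)

structure P (C : Set (Om × Y rk)) where
  y : Y rk
  a : Om
  c : ∀ b ≥ a, y.1 b = y.1 a
  g : G C y

variable {C : Set (Om × Y rk)}

def P.t (p : P C) : ℝ := p.y.1 p.a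
def P.le (p q : P C) : Prop := p.a ≤ q.a ∧ ∀ b ≤ p.a, q.y.1 b = p.y.1 b
noncomputable def P.m (p : P C) : ℝ := sSup (P.t '' {q | p.le q})

lemma P.rfl (p : P C) : p.le p := ⟨le_rfl, fun _ _ => Eq.refl _⟩
lemma P.le.trans {p q r : P C} (h : p.le q) (h' : q.le r) : p.le r :=
  ⟨h.1.trans h'.1, fun b hb => (h'.2 b (hb.trans h.1)).trans (h.2 b hb)⟩
lemma P.y_le (p : P C) (b : Om) : p.y.1 b ≤ p.t :=
  (p.y.2.2.1 (le_max_left b p.a)).trans_eq (p.c _ (le_max_right _ _))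
lemma P.le.y {p q : P C} (h : p.le q) (b : Om) : p.y.1 b ≤ q.y.1 b := by
  rcases le_total b p.a with e | e
  exacts [(h.2 b e).ge, (p.c b e).le.trans ((h.2 _ le_rfl).ge.trans (q.y.2.2.1 e))]
lemma P.le.t {p q : P C} (h : p.le q) : p.t ≤ q.t := (h.y _).trans (q.y_le _)

lemma step (hC : IsClopen C) (h : ∀ p q : ℝ, p < q → ∃ t ∈ Ioo p q, rk t = ⊥) (p : P C) :
    ∃ q, p.le q ∧ p.t < q.t := by
  choose s s1 s2 using fun n : ℕ => h p.t (p.t + 1 / (n + 1)) (by linarith [Nat.one_div_pos_of_nat (α := ℝ) (n := n)])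
  obtain ⟨c, hc⟩ := nxt p.a
  have k : p.a < c := hc.ge self_mem_Ici
  let y : ℕ → Y rk := fun n => ⟨fun b => if b ≤ p.a then p.y.1 b else s n, by
    refine ⟨continuous_if ?_ p.y.2.1.continuousOn continuousOn_const, fun a b e => ?_, fun b => ?_⟩
    · rw [show frontier {b | b ≤ p.a} = ∅ from IsClopen.frontier_eq ⟨isClosed_Iic, Iic_open _⟩]
      simp
    · dsimp only
      split_ifs with h1 h2 h2
      exacts [p.y.2.2.1 e, (p.y_le a).trans (s1 n).1.le, (h1 (e.trans h2)).elim, le_rfl]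
    · dsimp only
      split_ifs
      exacts [p.y.2.2.2 b, s2 n ▸ bot_le]⟩
  have t : Tendsto y atTop (𝓝 p.y) := tendsto_subtype_rng.2 (tendsto_pi_nhds.2 fun b => by
    by_cases e : b ≤ p.a
    · simp [y, e]
    · simp only [y, if_neg e, p.c b (not_le.1 e).le]
      refine tendsto_of_tendsto_of_tendsto_of_le_of_le tendsto_const_nhds ?_ (fun n => (s1 n).1.le)
        fun n => (s1 n).2.le
      simpa [P.t] using tendsto_one_div_add_atTop_nhds_zero_nat.const_add (p.y.1 p.a))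
  obtain ⟨n, hn⟩ : ∃ n, G C (y n) := by
    by_contra! e
    exact G_not p.g (G_lim hC.compl.1 t fun n => (G_or hC _).resolve_left (e n))
  exact ⟨⟨y n, c, fun b hb => by simp [y, k, k.trans_le hb, ← not_lt], hn⟩,
    ⟨k.le, fun b hb => if_pos hb⟩, by simpa [P.t, y, k, ← not_lt] using (s1 n).1⟩

variable (h1 : ∀ z ∈ C, z.2.1 z.1 < 1)
include h1

lemma P.t_le (p : P C) : p.t ≤ 1 := by
  obtain ⟨a, ha⟩ := p.g
  obtain ⟨c, hc⟩ := bd (countable_singleton (max a p.a))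
  exact (p.c c (max_lt_iff.1 (hc _ (Eq.refl _))).2.le).ge.trans
    (h1 _ (ha c (max_lt_iff.1 (hc _ (Eq.refl _))).1)).le

lemma P.le.tm {p q : P C} (h : p.le q) : q.t ≤ p.m :=
  le_csSup ⟨1, by rintro _ ⟨r, -, rfl⟩; exact r.t_le h1⟩ ⟨q, h, Eq.refl _⟩

lemma P.le.m {p q : P C} (h : p.le q) : q.m ≤ p.m :=
  csSup_le ⟨_, q, q.rfl, Eq.refl _⟩ (by rintro _ ⟨r, hr, rfl⟩; exact (h.trans hr).tm h1)

omit h1 in
lemma P.up (p : P C) {c : ℝ} (h : c < p.m) : ∃ q, p.le q ∧ c < q.t := by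
  obtain ⟨_, ⟨q, a, rfl⟩, b⟩ := exists_lt_of_lt_csSup (s := P.t '' {q | p.le q})
    ⟨_, p, p.rfl, Eq.refl _⟩ h
  exact ⟨q, a, b⟩

lemma P.fine (p : P C) (n : ℕ) : ∃ q, p.le q ∧ q.m < q.t + 1 / (n + 1) := by
  obtain ⟨q, a, b⟩ := p.up (sub_lt_self p.m (Nat.one_div_pos_of_nat (n := n)))
  exact ⟨q, a, by linarith [a.m h1]⟩

lemma chain {p : ℕ → P C} (h : ∀ n, (p n).le (p (n + 1))) {m n : ℕ} (e : m ≤ n) :
    (p m).le (p n) ∧ (p n).t ≤ ⨆ k, (p k).t ∧ ⨆ k, (p k).t ≤ (p n).m := by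
  have k : ∀ {m n : ℕ}, m ≤ n → (p m).le (p n) := fun e =>
    Nat.le_induction (P.rfl _) (fun k _ a => a.trans (h k)) _ e
  exact ⟨k e, le_ciSup (f := fun k => (p k).t) ⟨1, by rintro _ ⟨k, rfl⟩; exact P.t_le h1 _⟩ n,
    ciSup_le fun j => (k (le_max_left j n)).t.trans ((k (le_max_right j n)).tm h1)⟩

lemma lim (hC : IsClopen C) (h : ∀ p q : ℝ, p < q → ∃ t ∈ Ioo p q, rk t = ⊥) {p : ℕ → P C}
    (h2 : ∀ n, (p n).le (p (n + 1))) (h3 : ∀ n, (p (n + 1)).m < (p (n + 1)).t + 1 / (n + 1))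
    (h4 : rk (⨆ k, (p k).t) ≤ (p 0).a) : False := by
  have bd' : ∀ b, BddAbove (range fun n => (p n).y.1 b) := fun b =>
    ⟨1, by rintro _ ⟨k, rfl⟩; exact ((p k).y_le b).trans (P.t_le h1 _)⟩
  have e1 : ∀ n b, b ≤ (p n).a → ⨆ k, (p k).y.1 b = (p n).y.1 b := fun n b hb =>
    le_antisymm (ciSup_le fun k => ((chain h1 h2 (le_max_left k n)).1.y b).trans_eq
      ((chain h1 h2 (le_max_right k n)).1.2 b hb)) (le_ciSup (bd' b) n)
  have e2 : ∀ b, (∀ n, (p n).a ≤ b) → ⨆ k, (p k).y.1 b = ⨆ k, (p k).t := fun b hb =>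
    iSup_congr fun k => (p k).c b (hb k)
  have t : ∀ b, Tendsto (fun n => (p n).y.1 b) atTop (𝓝 (⨆ k, (p k).y.1 b)) := fun b =>
    tendsto_atTop_ciSup (monotone_nat_of_le_succ fun n => (h2 n).y b) (bd' b)
  have u : TendstoUniformly (fun n b => (p (n + 1)).y.1 b) (fun b => ⨆ k, (p k).y.1 b) atTop := by
    refine Metric.tendstoUniformly_iff.2 fun r hr => ?_
    filter_upwards [tendsto_one_div_add_atTop_nhds_zero_nat.eventually (gt_mem_nhds hr)] with n hn b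
    rcases le_total b (p (n + 1)).a with e | e
    · rw [e1 _ b e, dist_self]; exact hr
    · have a1 : ⨆ k, (p k).y.1 b ≤ (p (n + 1)).m := (ciSup_mono ⟨1, by
        rintro _ ⟨k, rfl⟩; exact P.t_le h1 _⟩ fun k => (p k).y_le b).trans (chain h1 h2 le_rfl).2.2
      have a2 := le_ciSup (bd' b) (n + 1)
      have a3 : (p (n + 1)).y.1 b = (p (n + 1)).t := (p (n + 1)).c b e
      rw [Real.dist_eq, abs_lt]
      constructor <;> linarith [h3 n]
  let z : Y rk := ⟨fun b => ⨆ k, (p k).y.1 b, u.continuous (Eventually.of_forall fun n =>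
    (p _).y.2.1).frequently, fun a b e => ciSup_mono (bd' b) fun k => (p k).y.2.2.1 e, fun b => by
      by_cases e : ∃ n, b ≤ (p n).a
      · obtain ⟨n, e⟩ := e
        beta_reduce; rw [e1 n b e]; exact (p n).y.2.2.2 b
      · push Not at e
        beta_reduce; rw [e2 b fun n => (e n).le]; exact h4.trans (e 0).le⟩
  obtain ⟨c, hc⟩ := bdr fun n => (p n).a
  let q : P C := ⟨z, c, fun b hb => (e2 b fun n => (hc n).le.trans hb).trans
    (e2 c fun n => (hc n).le).symm, G_lim hC.1 (tendsto_subtype_rng.2 (tendsto_pi_nhds.2 t))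
      fun n => (p n).g⟩
  obtain ⟨r, r1, r2⟩ := step hC h q
  obtain ⟨n, hn⟩ := exists_nat_one_div_lt (sub_pos.2 r2)
  have a1 : (p (n + 1)).le q := ⟨(hc _).le, e1 _⟩
  linarith [(a1.trans r1).tm h1, h3 n, a1.t]

end Pool.Agent.H.MP_bf7e1e
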