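import Pool.Agent.H.MP_bf7e1e.C

set_option autoImplicit false

open Set Filter Topology TopologicalSpace

namespace Pool.Agent.H.MP_bf7e1e

lemma L_len (b : ℕ → Bool) (n : ℕ) : (L b n).length = n := by
  induction n with
  | zero => rfl
  | succ n ih => simp [L, ih]

lemma L_eq {b c : ℕ → Bool} {n : ℕ} (h : ∀ k < n, b k = c k) : L b n = L c n := by
  induction n with
  | zero => rfl
  | succ n ih => simp [L, h n (Nat.lt_succ_self n), ih fun k hk => h k (hk.trans n.lt_succ_self)]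

lemma nosep {rk : ℝ → Om} (h : ∀ p q : ℝ, p < q → ∃ t ∈ Ioo p q, rk t = ⊥)
    (h' : ∀ τ : List Bool → ℝ, (fun b => ⨆ n, τ (L b n)).Injective →
      ∃ b, rk (⨆ n, τ (L b n)) = ⊥) {C : Set (Om × Y rk)} (hC : IsClopen C)
    (h1 : ∀ z ∈ C, z.2.1 z.1 < 1) (h0 : ∀ z : Om × Y rk, z.2.1 z.1 ≤ 0 → z ∈ C) : False := by
  classical
  by_cases e : ∃ p : P C, ∀ q, p.le q → p.m ≤ q.m
  · obtain ⟨p, hp⟩ := e
    choose f f1 f2 using P.fine h1
    let p0 : P C := ⟨p.y, max p.a (rk p.m), fun b hb =>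
      (p.c b ((le_max_left _ _).trans hb)).trans (p.c _ (le_max_left _ _)).symm, p.g⟩
    have a0 : p.le p0 := ⟨le_max_left _ _, fun _ _ => rfl⟩
    let s : ℕ → P C := fun n => Nat.rec p0 (fun k q => f q k) n
    have s1 : ∀ n, (s n).le (s (n + 1)) := fun n => f1 _ _
    have s2 : ∀ n, (s (n + 1)).m < (s (n + 1)).t + 1 / (n + 1) := fun n => f2 _ _
    refine lim h1 hC h s1 s2 ?_
    have : ⨆ k, (s k).t = p.m := le_antisymm
      ((chain h1 s1 (le_refl 0)).2.2.trans (a0.m h1)) (not_lt.1 fun k => by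
        obtain ⟨n, hn⟩ := exists_nat_one_div_lt (sub_pos.2 k)
        have := chain h1 s1 (Nat.zero_le (n + 1))
        linarith [hp _ (a0.trans this.1), s2 n, this.2.1])
    rw [this]
    exact le_max_right _ _
  · push Not at e
    have : ∀ (p : P C) (n : ℕ), ∃ q : Bool → P C, (∀ b, p.le (q b) ∧
        (q b).m < (q b).t + 1 / (n + 1)) ∧ (q false).m < (q true).t := fun p n => by
      obtain ⟨q, a1, a2⟩ := e p
      obtain ⟨r, b1, b2⟩ := p.up a2
      obtain ⟨q', c1, c2⟩ := q.fine h1 n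
      obtain ⟨r', d1, d2⟩ := r.fine h1 n
      refine ⟨fun b => bif b then r' else q', fun b => ?_, ((c1.m h1).trans_lt b2).trans_le d1.t⟩
      cases b
      exacts [⟨a1.trans c1, c2⟩, ⟨b1.trans d1, d2⟩]
    choose f f1 f2 using this
    obtain ⟨t, t1, t2⟩ := h (-1) 0 (by norm_num)
    let p0 : P C := ⟨⟨fun _ => t, continuous_const, monotone_const, fun _ => t2 ▸ bot_le⟩, ⊥,
      fun _ _ => rfl, ⊥, fun _ _ => h0 _ t1.2.le⟩
    let T : List Bool → P C := fun s => List.rec p0 (fun b s q => f q s.length b) s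
    have s1 : ∀ b n, (T (L b n)).le (T (L b (n + 1))) := fun b n => (f1 _ _ _).1
    have k : ∀ b c : ℕ → Bool, ∀ n, L b n = L c n → b n = false → c n = true →
        ⨆ n, (T (L b n)).t < ⨆ n, (T (L c n)).t := fun b c n e1 e2 e3 => by
      refine ((chain h1 (s1 b) (le_refl (n + 1))).2.2.trans_lt ?_).trans_le
        (chain h1 (s1 c) (le_refl (n + 1))).2.1
      simp only [L, e1, e2, e3]
      exact f2 _ _
    obtain ⟨b, hb⟩ := h' (fun s => (T s).t) fun b c e => by
      by_contra! n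
      have n := Function.ne_iff.1 n
      have e1 := L_eq fun k hk => not_not.1 (Nat.find_min n hk)
      have e2 := Nat.find_spec n
      cases e3 : b (Nat.find n) <;> cases e4 : c (Nat.find n) <;> simp only [e3, e4] at e2
      · exact e2 rfl
      · exact (k b c _ e1 e3 e4).ne e
      · exact (k c b _ e1.symm e4 e3).ne' e
      · exact e2 rfl
    refine lim h1 hC h (s1 b) (fun n => ?_) (hb ▸ bot_le)
    have := (f1 (T (L b n)) (L b n).length (b n)).2
    rwa [show ((L b n).length : ℝ) = n by rw [L_len]] at this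

end Pool.Agent.H.MP_bf7e1e
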